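import Pool.Agent.HopfCov.Statement

/-!
# A smooth structure on a topological space glued from pieces
-/

set_option autoImplicit false
set_option linter.unusedSectionVars false

open scoped ContDiff Topology Manifold
open Set Filter

namespace Pool.Agent.SPC

open Pool.Agent.HopfCov Pool.Agent.HopfCov.Smooth

variable {X : Type} [TopologicalSpace X] {ι : Type}

/-- partial homeomorphisms from `X` to smooth manifolds which cover `X` and have smooth
transition maps -/
structure Pieces (M : ι → Mfd4) (φ : ∀ i, OpenPartialHomeomorph X (M i)) : Prop where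
  cover : ∀ x, ∃ i, x ∈ (φ i).source
  compat : ∀ i j x, x ∈ (φ i).source → x ∈ (φ j).source →
    ContMDiffAt (𝓡 4) (𝓡 4) ∞ (fun y => φ j ((φ i).symm y)) (φ i x)

namespace Pieces

variable {M : ι → Mfd4} {φ : ∀ i, OpenPartialHomeomorph X (M i)}

noncomputable def idx (h : Pieces M φ) (x : X) : ι := (h.cover x).choose

theorem mem_idx (h : Pieces M φ) (x : X) : x ∈ (φ (h.idx x)).source := (h.cover x).choose_spec

/-- the glued atlas -/
@[reducible] noncomputable def charted (h : Pieces M φ) : ChartedSpace E4 X where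
  atlas := {e | ∃ i, ∃ c ∈ atlas E4 (M i), e = (φ i).trans c}
  chartAt := fun x => (φ (h.idx x)).trans (chartAt E4 (φ (h.idx x) x))
  mem_chart_source := fun x => by
    rw [OpenPartialHomeomorph.trans_source]
    exact ⟨h.mem_idx x, mem_chart_source E4 _⟩
  chart_mem_atlas := fun x => ⟨h.idx x, _, chart_mem_atlas E4 _, rfl⟩

theorem isManifold (h : Pieces M φ) : @IsManifold ℝ _ E4 _ _ E4 _ (𝓡 4) ∞ X _ h.charted := by
  letI := h.charted
  refine isManifold_of_contDiffOn (𝓡 4) ∞ X ?_
  rintro e e' ⟨i, c, hc, rfl⟩ ⟨j, c', hc', rfl⟩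
  intro y hy
  have hy1 : y ∈ (((φ i).trans c).symm.trans ((φ j).trans c')).source := hy.1
  refine ContDiffAt.contDiffWithinAt ?_
  rw [OpenPartialHomeomorph.trans_source, OpenPartialHomeomorph.symm_source] at hy1
  have hy2 : y ∈ ((φ i).trans c).target := hy1.1
  rw [OpenPartialHomeomorph.trans_target] at hy2
  have hct : y ∈ c.target := hy2.1
  have hm : c.symm y ∈ (φ i).target := hy2.2
  have hy3 : (φ i).symm (c.symm y) ∈ ((φ j).trans c').source := hy1.2
  rw [OpenPartialHomeomorph.trans_source] at hy3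
  have hj : (φ i).symm (c.symm y) ∈ (φ j).source := hy3.1
  have hc's : φ j ((φ i).symm (c.symm y)) ∈ c'.source := hy3.2
  have h1 : ContMDiffAt (𝓡 4) (𝓡 4) ∞ c.symm y :=
    (contMDiffOn_symm_of_mem_maximalAtlas (IsManifold.subset_maximalAtlas hc) y hct).contMDiffAt
      (c.open_target.mem_nhds hct)
  have h2 : ContMDiffAt (𝓡 4) (𝓡 4) ∞ (fun y => φ j ((φ i).symm y)) (c.symm y) := by
    have := h.compat i j ((φ i).symm (c.symm y)) ((φ i).map_target hm) hj
    rwa [(φ i).right_inv hm] at this
  have h3 : ContMDiffAt (𝓡 4) (𝓡 4) ∞ c' (φ j ((φ i).symm (c.symm y))) :=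
    (contMDiffOn_of_mem_maximalAtlas (IsManifold.subset_maximalAtlas hc') _ hc's).contMDiffAt
      (c'.open_source.mem_nhds hc's)
  have h4 : ContMDiffAt (𝓡 4) (𝓡 4) ∞ (fun z => c' (φ j ((φ i).symm (c.symm z)))) y :=
    h3.comp y (h2.comp y h1)
  exact h4.contDiffAt

/-- the smooth manifold glued from the pieces -/
noncomputable def mfd (h : Pieces M φ) : Mfd4 := ⟨X, inferInstance, h.charted, h.isManifold⟩

theorem local_diffeo (h : Pieces M φ) (i : ι) {x : X} (hx : x ∈ (φ i).source) :
    @IsLocalDiffeomorphAt ℝ _ E4 _ _ E4 _ _ E4 _ E4 _ (𝓡 4) (𝓡 4) X _ h.charted (M i) _ _ ∞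
      (φ i) x := by
  letI := h.charted
  haveI := h.isManifold
  refine ⟨{ toPartialEquiv := (φ i).toPartialEquiv
            open_source := (φ i).open_source
            open_target := (φ i).open_target
            contMDiffOn_toFun := ?_
            contMDiffOn_invFun := ?_ }, hx, fun z _ => rfl⟩
  · intro z hz
    set c := chartAt E4 (φ i z) with hc
    have hmem : (φ i).trans c ∈ IsManifold.maximalAtlas (𝓡 4) ∞ X :=
      IsManifold.subset_maximalAtlas ⟨i, c, chart_mem_atlas E4 _, rfl⟩
    have hzs : z ∈ ((φ i).trans c).source := by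
      rw [OpenPartialHomeomorph.trans_source]
      exact ⟨hz, mem_chart_source E4 _⟩
    have h1 : ContMDiffAt (𝓡 4) (𝓡 4) ∞ ((φ i).trans c) z :=
      (contMDiffOn_of_mem_maximalAtlas hmem z hzs).contMDiffAt
        (((φ i).trans c).open_source.mem_nhds hzs)
    have hct : c (φ i z) ∈ c.target := mem_chart_target E4 _
    have h2 : ContMDiffAt (𝓡 4) (𝓡 4) ∞ c.symm (c (φ i z)) :=
      (contMDiffOn_symm_of_mem_maximalAtlas (IsManifold.subset_maximalAtlas
        (chart_mem_atlas E4 _)) _ hct).contMDiffAt (c.open_target.mem_nhds hct)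
    have h3 : ContMDiffAt (𝓡 4) (𝓡 4) ∞ (fun w => c.symm ((φ i).trans c w)) z := h2.comp z h1
    refine (h3.congr_of_eventuallyEq ?_).contMDiffWithinAt
    filter_upwards [((φ i).trans c).open_source.mem_nhds hzs] with w hw
    rw [OpenPartialHomeomorph.trans_source] at hw
    exact (c.left_inv hw.2).symm
  · intro m hm
    set c := chartAt E4 m with hc
    have hmem : (φ i).trans c ∈ IsManifold.maximalAtlas (𝓡 4) ∞ X :=
      IsManifold.subset_maximalAtlas ⟨i, c, chart_mem_atlas E4 _, rfl⟩
    have hmt : c m ∈ ((φ i).trans c).target := by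
      rw [OpenPartialHomeomorph.trans_target]
      refine ⟨mem_chart_target E4 _, ?_⟩
      show c.symm (c m) ∈ (φ i).target
      rw [c.left_inv (mem_chart_source E4 m)]
      exact hm
    have h1 : ContMDiffAt (𝓡 4) (𝓡 4) ∞ ((φ i).trans c).symm (c m) :=
      (contMDiffOn_symm_of_mem_maximalAtlas hmem _ hmt).contMDiffAt
        (((φ i).trans c).open_target.mem_nhds hmt)
    have h2 : ContMDiffAt (𝓡 4) (𝓡 4) ∞ c m :=
      (contMDiffOn_of_mem_maximalAtlas (IsManifold.subset_maximalAtlas
        (chart_mem_atlas E4 _)) _ (mem_chart_source E4 m)).contMDiffAt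
        (c.open_source.mem_nhds (mem_chart_source E4 m))
    have h3 : ContMDiffAt (𝓡 4) (𝓡 4) ∞ (fun w => ((φ i).trans c).symm (c w)) m := h1.comp m h2
    refine (h3.congr_of_eventuallyEq ?_).contMDiffWithinAt
    filter_upwards [c.open_source.mem_nhds (mem_chart_source E4 m)] with w hw
    show (φ i).symm w = (φ i).symm (c.symm (c w))
    rw [c.left_inv hw]

end Pieces

end Pool.Agent.SPC
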