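import Pool.Agent.HopfRem.Transport
import Pool.Agent.HopfRem.Shrink
import Pool.Agent.HopfCov.Mfd

/-!
# The disc theorem in `E`

An orientation preserving embedding `κ : E → E` is inverted on any ball by a compactly supported
diffeomorphism. Proof: squeezing. `k` inverts the germ of `κ` at `0`, `s` is a compactly supported
diffeomorphism, multiplication by a small `ε` on the ball, `θ` the transport of `s` by `κ`;
`K = s⁻¹ k θ`.
-/

set_option autoImplicit false
set_option linter.unusedSectionVars false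

open scoped ContDiff Topology
open Set Filter Metric Topology

namespace Pool.Agent.SPC

open Pool.Agent.HopfCov

variable {E : Type} [NormedAddCommGroup E] [InnerProductSpace ℝ E] [FiniteDimensional ℝ E]

theorem LD_contra {f : E → E} {x : E} (h : LD 1 f x) (h' : LD (-1) f x) : False := by
  have h1 := h.2
  have h2 := h'.2
  linarith

theorem LD_of_RG_comp {f g : E → E} {x : E} (hf : LD 1 f x) (h : LD 1 (fun y => g (f y)) x) :
    LD 1 g (f x) := by
  rcases (RG.of_comp_right hf.rg h.rg).ld with h1 | h1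
  · exact h1
  · exfalso
    have h2 := h1.comp hf
    rw [mul_one] at h2
    exact LD_contra h h2

theorem LD_of_RG_comp_left {f g : E → E} {x : E} (hf : ContinuousAt f x) (hg : LD 1 g (f x))
    (h : LD 1 (fun y => g (f y)) x) : LD 1 f x := by
  rcases (RG.of_comp hf hg.rg h.rg).ld with h1 | h1
  · exact h1
  · exfalso
    have h2 := hg.comp h1
    rw [one_mul] at h2
    exact LD_contra h h2

/-- transport of a compactly supported diffeomorphism by an embedding -/
theorem transport_LD {κ : E → E} (hi : Function.Injective κ) (hκ : ∀ x, LD 1 κ x)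
    {s : E ≃ₜ E} (hs : ∀ x, LD 1 s x) {C : Set E} (hC : IsCompact C) (hsC : ∀ x, x ∉ C → s x = x) :
    ∃ θ : E ≃ₜ E, (∀ x, LD 1 θ x) ∧ (∀ x, θ (κ x) = κ (s x)) ∧ ∀ y, y ∉ κ '' C → θ y = y := by
  have hemb := RG.isOpenEmbedding hi fun x => (hκ x).rg
  obtain ⟨θ, hθ1, hθ2⟩ := exists_transport hemb s hC hsC
  refine ⟨θ, fun y => ?_, hθ1, hθ2⟩
  by_cases hy : y ∈ range κ
  · obtain ⟨x, rfl⟩ := hy
    refine LD_of_RG_comp (hκ x) ?_
    have h2 : (fun y => θ (κ y)) = fun y => κ (s y) := funext hθ1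
    rw [h2]
    have h3 := (hκ (s x)).comp (hs x)
    rw [one_mul] at h3
    exact h3
  · have hcl : IsClosed (κ '' C) := (hC.image hemb.continuous).isClosed
    have hy' : y ∈ (κ '' C)ᶜ := by
      rintro ⟨x, -, rfl⟩
      exact hy ⟨x, rfl⟩
    refine (LD_id y).congr ?_
    filter_upwards [hcl.isOpen_compl.mem_nhds hy'] with z hz
    exact (hθ2 z hz).symm

/-- the disc theorem for embeddings of the whole space -/
theorem disc (hdim : 1 < Module.finrank ℝ E) {κ : E → E} (hi : Function.Injective κ)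
    (hκ : ∀ x, LD 1 κ x) (R : ℝ) :
    ∃ K : E ≃ₜ E, (∀ x, LD 1 K x) ∧ CS K ∧ ∀ x, ‖x‖ ≤ R → K (κ x) = x := by
  obtain ⟨H, hH1, hH2, hH3⟩ := germ_move (specGermFix) (spec_swap specGermFix) hdim κ 0
    (Eventually.of_forall fun x => hκ x)
  obtain ⟨η, hη, hηH⟩ := Metric.eventually_nhds_iff_ball.1 hH2
  set a : ℝ := max R 1 with ha
  have ha0 : 0 < a := lt_of_lt_of_le one_pos (le_max_right _ _)
  set ε : ℝ := min 1 (η / (2 * a)) with hε
  have hε0 : 0 < ε := lt_min one_pos (by positivity)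
  have hε1 : ε ≤ 1 := min_le_left _ _
  obtain ⟨s, hs1, hs2, hs3⟩ := spec_radial E ε a (a + 1) hε0 hε1 ha0 (by linarith)
  have hsC : ∀ x, x ∉ closedBall (0 : E) (a + 1) → s x = x := by
    intro x hx
    rw [mem_closedBall_zero_iff, not_le] at hx
    exact hs3 x hx.le
  obtain ⟨θ, hθ, hθ1, hθ2⟩ := transport_LD hi hκ hs1 (isCompact_closedBall 0 (a + 1)) hsC
  refine ⟨s⁻¹ * (H⁻¹ * θ), LD_all_mul (LD_all_inv hs1) (LD_all_mul (LD_all_inv hH1) hθ), ?_, ?_⟩
  · refine CS.mul (CS.inv (CS_of_supp hs3)) (CS.mul hH3.inv ?_)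
    have hcpt : IsCompact (κ '' closedBall 0 (a + 1)) :=
      (isCompact_closedBall 0 (a + 1)).image
        (continuous_iff_continuousAt.2 fun x => (hκ x).continuousAt)
    filter_upwards [hcpt.compl_mem_cocompact] with y hy
    exact hθ2 y hy
  · intro x hx
    have hxa : ‖x‖ ≤ a := hx.trans (le_max_left _ _)
    have h1 : s x = ε • x := hs2 x hxa
    have h2 : ε • x ∈ ball (0 : E) η := by
      rw [mem_ball_zero_iff, norm_smul, Real.norm_of_nonneg hε0.le]
      calc ε * ‖x‖ ≤ η / (2 * a) * a :=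
            mul_le_mul (min_le_right _ _) hxa (norm_nonneg _) (by positivity)
        _ = η / 2 := by field_simp
        _ < η := by linarith
    have h3 := hηH _ h2
    show (s⁻¹ : E ≃ₜ E) ((H⁻¹ : E ≃ₜ E) (θ (κ x))) = x
    rw [hθ1, h1, ← h3, inv_apply_self', ← h1, inv_apply_self']

/-- the disc theorem for embeddings of an open set containing a closed ball -/
theorem disc_ball (hdim : 1 < Module.finrank ℝ E) {ψ : E → E} {c : E} {r ρ : ℝ} (hr : 0 < r)
    (hρ : r < ρ) (hi : InjOn ψ (ball c ρ)) (hψ : ∀ x ∈ ball c ρ, LD 1 ψ x) :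
    ∃ K : E ≃ₜ E, (∀ x, LD 1 K x) ∧ CS K ∧ ∀ x ∈ closedBall c r, K (ψ x) = x := by
  obtain ⟨h, he, hh, hid, hran⟩ := exists_shrink c hr hρ
  have hc : h c = c := hid c (mem_closedBall_self hr.le)
  have hld : ∀ x, LD 1 h x := by
    obtain ⟨t, ht, h1⟩ := sign_const (f := h) isOpen_univ isPreconnected_univ fun x _ => hh x
    rcases ht with rfl | rfl
    · exact fun x => h1 x (mem_univ x)
    · exfalso
      refine LD_contra (x := c) ((LD_id c).congr ?_) (h1 c (mem_univ c))
      filter_upwards [closedBall_mem_nhds c hr] with x hx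
      exact (hid x hx).symm
  have hmem : ∀ x, h x ∈ ball c ρ := fun x => by
    rw [← hran]
    exact mem_range_self x
  have hκ : ∀ x, LD 1 (fun y => ψ (h y)) x := by
    intro x
    have h1 := (hψ (h x) (hmem x)).comp (hld x)
    rw [one_mul] at h1
    exact h1
  have hκi : Function.Injective fun y => ψ (h y) := by
    intro x y hxy
    exact he.injective (hi (hmem x) (hmem y) hxy)
  obtain ⟨K, h1, h2, h3⟩ := disc hdim hκi hκ (‖c‖ + r)
  refine ⟨K, h1, h2, fun x hx => ?_⟩
  have hx' : ‖x‖ ≤ ‖c‖ + r := by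
    rw [mem_closedBall, dist_eq_norm] at hx
    calc ‖x‖ = ‖c + (x - c)‖ := by congr 1; abel
      _ ≤ ‖c‖ + ‖x - c‖ := norm_add_le _ _
      _ ≤ ‖c‖ + r := by linarith
  have h4 := h3 x hx'
  simp only [hid x hx] at h4
  exact h4

end Pool.Agent.SPC
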